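import Mathlib

/-!
# Soulé's conjecture at the integers `-j`: definitions
-/

set_option autoImplicit false

open CategoryTheory CategoryTheory.Limits AlgebraicGeometry

namespace Pool.Agent.R387.SO

/-! ### Arithmetic schemes and their zeta functions -/

/-- A regular connected (or, what is the same, regular irreducible) scheme of Krull dimension `dim`,
proper over `Spec ℤ`. It need not be flat over `ℤ`. -/
structure Var where
  /-- the underlying scheme -/
  X : Scheme.{0}
  /-- the structure morphism -/
  str : X ⟶ Spec (.of ℤ)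
  /-- the Krull dimension -/
  dim : ℕ
  krull : topologicalKrullDim X = dim
  regular : ∀ x : X, IsRegularLocalRing (X.presheaf.stalk x)
  proper : IsProper str
  irred : IrreducibleSpace X

/-- The zeta function `ζ(X, s) = ∏ (1 - N(x)^(-s))⁻¹`, the product over the closed points, which
converges for `Re s > dim X`. -/
noncomputable def zeta (X : Scheme.{0}) (s : ℂ) : ℂ :=
  ∏' x : {x : X // IsClosed ({x} : Set X)}, (1 - (Nat.card (X.residueField x.1) : ℂ) ^ (-s))⁻¹

/-- `f` is the meromorphic continuation of the zeta function of `X` to the complex plane. (The condition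
that `f` does not vanish identically is automatic, because `ζ(X, s) ≠ 0` for `Re s > dim X`.) -/
structure Continues (X : Var) (f : ℂ → ℂ) : Prop where
  mero : MeromorphicOn f Set.univ
  ne_zero : ∀ s, meromorphicOrderAt f s ≠ ⊤
  eq : ∀ s : ℂ, (X.dim : ℝ) < s.re → f s = zeta X.X s

/-- A class of arithmetic schemes, for example the class of all regular connected schemes projective
over `ℤ`. -/
structure VarClass where
  mem : Var → Prop

/-- The schemes in the class `S`. -/
structure VarClass.Obj (S : VarClass) where
  V : Var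
  mem : S.mem V

variable {S : VarClass}

/-- the Krull dimension -/
def VarClass.Obj.dim (X : S.Obj) : ℕ := X.V.dim

/-- `X` is flat over `ℤ` (otherwise it is a smooth proper variety over a finite field). -/
def VarClass.Obj.IsFlat (X : S.Obj) : Prop := Flat X.V.str

/-! ### Motivic cohomology -/

/-- A rational vector space. -/
structure QSpace where
  V : Type
  [g : AddCommGroup V]
  [m : Module ℚ V]

attribute [instance] QSpace.g QSpace.m

/-- The dimension (zero if the space has infinite dimension). -/
noncomputable def QSpace.rank (A : QSpace) : ℕ := Module.finrank ℚ A.V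

/-- `A` is isomorphic to the direct sum of the `B k`. -/
def QSpace.SumOf (A : QSpace) {ι : Type} (B : ι → QSpace) : Prop :=
  Nonempty (A.V ≃ₗ[ℚ] ∀ k, (B k).V)

/-- Motivic cohomology, blow-ups and products with projective spaces. -/
structure Data (S : VarClass) where
  /-- `H X j i` is the motivic cohomology `H^{2q-i}(X, ℚ(q)) = K_i(X)^{(q)}_ℚ` for `q = dim X + j` -/
  H : S.Obj → ℕ → ℕ → QSpace
  /-- `Spec ℤ` -/
  pt : S.Obj
  /-- `prod X m = ℙ^m × X` -/
  prod : S.Obj → ℕ → S.Obj
  /-- `Blow B X W c`: `B` is the blow-up of `X` along a closed subscheme isomorphic to `W`, of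
  codimension `c + 1` -/
  Blow : S.Obj → S.Obj → S.Obj → ℕ → Prop

variable (D : Data S)

/-- The projective bundle formula for `ℙ^m × X`. -/
structure IsProd (m : ℕ) (P X : S.Obj) : Prop where
  dim : P.dim = X.dim + m
  flat : X.IsFlat → P.IsFlat
  coh : ∀ j i, (D.H P j i).SumOf fun k : Fin (m + 1) => D.H X (j + k) i
  zeta : ∀ s : ℂ, ((X.dim + m : ℕ) : ℝ) < s.re →
    zeta P.V.X s = ∏ k : Fin (m + 1), zeta X.V.X (s - (k : ℕ))

/-- The blow-up formula: with `q = dim B + j`, `H^p(B, ℚ(q))` is the direct sum of `H^p(X, ℚ(q))` and the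
`H^{p-2a}(W, ℚ(q-a))`, `0 < a ≤ c`, and `q - a = dim W + j + (c + 1 - a)`. -/
structure IsBlowUp (B X W : S.Obj) (c : ℕ) : Prop where
  dim : B.dim = X.dim
  codim : X.dim = W.dim + c + 1
  flat : X.IsFlat → B.IsFlat
  coh : ∀ j i, (D.H B j i).SumOf fun k : Option (Fin c) =>
    k.elim (D.H X j i) fun a => D.H W (j + (a + 1)) i
  zeta : ∀ s : ℂ, (X.dim : ℝ) < s.re →
    zeta B.V.X s = zeta X.V.X s * ∏ a : Fin c, zeta W.V.X (s - ((a : ℕ) + 1 : ℕ))

/-- The formal properties: projective bundles, blow-ups, and the closed embeddings of every scheme in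
projective spaces of all sufficiently large dimensions. -/
structure IsData : Prop where
  pt_dim : D.pt.dim = 1
  pt_flat : D.pt.IsFlat
  prod : ∀ X m, IsProd D m (D.prod X m) X
  blowUp : ∀ {B X W : S.Obj} {c : ℕ}, D.Blow B X W c → IsBlowUp D B X W c
  embed : ∀ X : S.Obj, ∃ c₀ : ℕ, ∀ c ≥ c₀, ∃ B, D.Blow B (D.prod D.pt (X.dim + c)) X c

/-- The spaces `H^*(X, ℚ(dim X + j))` are finite dimensional and only finitely many are not zero. -/
structure FiniteDim (X : S.Obj) (j : ℕ) : Prop where
  finite : ∀ i, Module.Finite ℚ (D.H X j i).V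
  bounded : {i : ℕ | Nontrivial (D.H X j i).V}.Finite

/-- The hypotheses (i), (ii) of the problem for `X`, at all integers `-j`: the zeta function has a
meromorphic continuation to the complex plane, and the motivic cohomology in the weights `≥ dim X` is
finite dimensional and bounded in each weight. -/
structure Good (X : S.Obj) : Prop where
  cont : ∃ f, Continues X.V f
  fin : ∀ j, FiniteDim D X j

/-- The number `∑ (-1)^{i+1} dim H^{2q-i}(X, ℚ(q))`, `q = dim X + j`. -/
noncomputable def chi (X : S.Obj) (j : ℕ) : ℤ := ∑ᶠ i : ℕ, (-1) ^ (i + 1) * ((D.H X j i).rank : ℤ)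

/-- Soulé's identity for `X` at `s = -j`: the order of the zeta function is
`∑ (-1)^{i+1} dim H^{2q-i}(X, ℚ(q))`, `q = dim X + j`, if both are defined. For `j = 0` and flat `X` this
is the identity of the problem. -/
def Soule (X : S.Obj) (j : ℕ) : Prop :=
  ∀ f, Continues X.V f → FiniteDim D X j → meromorphicOrderAt f (-(j : ℂ)) = (chi D X j : WithTop ℤ)

/-- The schemes which are obtained from projective spaces over `ℤ` by blowing up good centres, flat
or not flat over `ℤ`, finitely many times. -/
inductive Tower : S.Obj → Prop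
  | base (N : ℕ) : Tower (D.prod D.pt N)
  | blowUp {B X W : S.Obj} {c : ℕ} : Tower X → Good D W → D.Blow B X W c → Tower B

/-! ### The statements -/

/-- Soulé's identity at `s = 0` for all towers of blow-ups of projective spaces over `ℤ` is equivalent
to Soulé's identity at all `s = -j`, `j ≥ 1`, for all good schemes, flat or not. -/
def TowersIffNegative : Prop := (∀ B, Tower D B → Soule D B 0) ↔ ∀ W, Good D W → ∀ j, 1 ≤ j → Soule D W j

/-- The identity of the problem for all good flat schemes is equivalent to Soulé's identity for all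
good flat schemes at all `s = -j`, `j ≥ 0`, and for all good schemes which are not flat at all `s = -j`,
`j ≥ 1`. -/
def ZeroIffNonpositive : Prop :=
  (∀ X : S.Obj, X.IsFlat → Good D X → Soule D X 0) ↔
    ∀ X : S.Obj, Good D X → ∀ j, (X.IsFlat ∨ 1 ≤ j) → Soule D X j

/-- If the identity at `s = 0` holds for the towers, then for all good schemes it is invariant under
blow-ups and under products with projective spaces. -/
def Invariance : Prop := (∀ B, Tower D B → Soule D B 0) →
  (∀ (B X W : S.Obj) (c : ℕ), Good D X → Good D W → D.Blow B X W c → (Soule D B 0 ↔ Soule D X 0)) ∧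
    ∀ (X : S.Obj) (m : ℕ), Good D X → (Soule D (D.prod X m) 0 ↔ Soule D X 0)

/-- The identity at `s = 0` for the good flat schemes of dimension `≤ N` is equivalent to the identity
at `s = -j` for all good flat schemes of dimension `≤ N - j`, `j ≥ 0`. -/
def UpToDimension (N : ℕ) : Prop :=
  (∀ X : S.Obj, X.IsFlat → Good D X → X.dim ≤ N → Soule D X 0) ↔
    ∀ X : S.Obj, X.IsFlat → Good D X → ∀ j, X.dim + j ≤ N → Soule D X j

end Pool.Agent.R387.SO
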