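import Mathlib
import Pool.Agent.R387.SO.Defs

/-!
# Soulé's conjecture at the integers `-j`: proofs
-/

set_option autoImplicit false

open Filter Topology

namespace Pool.Agent.R387.SO

/-! ### Continuations -/

theorem Continues.order_eq {X : Var} {f g : ℂ → ℂ} (hf : Continues X f) (hg : Continues X g) (s : ℂ) :
    meromorphicOrderAt f s = meromorphicOrderAt g s := by
  have hm : MeromorphicOn (f - g) Set.univ := hf.mero.sub hg.mero
  have h0 : meromorphicOrderAt (f - g) ((X.dim : ℂ) + 1) = ⊤ := by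
    rw [meromorphicOrderAt_eq_top_iff]
    have h1 : ∀ᶠ z in 𝓝 ((X.dim : ℂ) + 1), (X.dim : ℝ) < z.re := by
      have : IsOpen {z : ℂ | (X.dim : ℝ) < z.re} := isOpen_lt continuous_const Complex.continuous_re
      refine this.mem_nhds ?_
      simp
    refine (h1.filter_mono nhdsWithin_le_nhds).mono fun z hz => ?_
    rw [Pi.sub_apply, hf.eq z hz, hg.eq z hz, sub_self]
  have h1 : meromorphicOrderAt (f - g) s = ⊤ := by
    by_contra h
    exact hm.meromorphicOrderAt_ne_top_of_isPreconnected isPreconnected_univ (Set.mem_univ s)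
      (Set.mem_univ ((X.dim : ℂ) + 1)) h h0
  rw [meromorphicOrderAt_eq_top_iff] at h1
  refine meromorphicOrderAt_congr (h1.mono fun z hz => ?_)
  rwa [Pi.sub_apply, sub_eq_zero] at hz

/-- the order of the zeta function at `-j` -/
noncomputable def ordv (X : Var) (j : ℕ) : ℤ := by
  classical
  exact if h : ∃ f, Continues X f then (meromorphicOrderAt h.choose (-(j : ℂ))).untopD 0 else 0

theorem Continues.order {X : Var} {f : ℂ → ℂ} (hf : Continues X f) (j : ℕ) :
    meromorphicOrderAt f (-(j : ℂ)) = (ordv X j : WithTop ℤ) := by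
  have h : ∃ f, Continues X f := ⟨f, hf⟩
  have h1 : ordv X j = (meromorphicOrderAt f (-(j : ℂ))).untopD 0 := by
    unfold ordv
    rw [dif_pos h, h.choose_spec.order_eq hf]
  rw [h1]
  obtain ⟨n, hn⟩ := WithTop.ne_top_iff_exists.1 (hf.ne_zero (-(j : ℂ)))
  rw [← hn]
  rfl

theorem shift_mero {f : ℂ → ℂ} (hf : MeromorphicOn f Set.univ) (c : ℂ) :
    MeromorphicOn (fun s => f (s - c)) Set.univ := by
  intro s _
  have h1 : MeromorphicAt (f ∘ (· - c)) s := by
    have h2 : MeromorphicAt f ((fun z : ℂ => z - c) s) := hf (s - c) (Set.mem_univ _)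
    have h3 : AnalyticAt ℂ (fun z : ℂ => z - c) s := by fun_prop
    exact MeromorphicAt.comp_analyticAt (g := fun z : ℂ => z - c) h2 h3
  exact h1

theorem shift_order (f : ℂ → ℂ) (c s : ℂ) :
    meromorphicOrderAt (fun z => f (z - c)) s = meromorphicOrderAt f (s - c) :=
  meromorphicOrderAt_comp_sub_const_eq_meromorphicOrderAt

/-- products of shifts -/
theorem prod_shift {ι : Type} [Fintype ι] (f : ι → ℂ → ℂ) (c : ι → ℂ)
    (hm : ∀ k, MeromorphicOn (f k) Set.univ) :
    MeromorphicOn (fun s => ∏ k, f k (s - c k)) Set.univ ∧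
      ∀ s, meromorphicOrderAt (fun s => ∏ k, f k (s - c k)) s =
        ∑ k, meromorphicOrderAt (f k) (s - c k) := by
  constructor
  · intro s hs
    exact MeromorphicAt.fun_prod fun k _ => shift_mero (hm k) (c k) s hs
  · intro s
    rw [meromorphicOrderAt_fun_prod fun k _ => shift_mero (hm k) (c k) s (Set.mem_univ s)]
    exact Finset.sum_congr rfl fun k _ => shift_order _ _ _

theorem sum_ne_top {ι : Type} (s : Finset ι) (f : ι → WithTop ℤ) (h : ∀ k ∈ s, f k ≠ ⊤) :
    ∑ k ∈ s, f k ≠ ⊤ := by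
  rw [Ne, WithTop.sum_eq_top]
  rintro ⟨k, hk, h1⟩
  exact h k hk h1

/-- a product formula for zeta functions gives a formula for the orders -/
theorem order_of_formula {Y : Var} {ι : Type} [Fintype ι] (X : ι → Var) (c : ι → ℕ)
    (hd : ∀ k, (X k).dim + c k ≤ Y.dim)
    (hz : ∀ s : ℂ, (Y.dim : ℝ) < s.re → zeta Y.X s = ∏ k, zeta (X k).X (s - (c k : ℕ)))
    (hX : ∀ k, ∃ f, Continues (X k) f) :
    (∃ f, Continues Y f) ∧ ∀ j, ordv Y j = ∑ k, ordv (X k) (j + c k) := by
  choose f hf using hX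
  obtain ⟨h1, h2⟩ := prod_shift f (fun k => ((c k : ℕ) : ℂ)) fun k => (hf k).mero
  have hc : Continues Y fun s => ∏ k, f k (s - (c k : ℕ)) := by
    refine ⟨h1, fun s => ?_, fun s hs => ?_⟩
    · rw [h2]
      exact sum_ne_top _ _ fun k _ => (hf k).ne_zero _
    · rw [hz s hs]
      refine Finset.prod_congr rfl fun k _ => (hf k).eq _ ?_
      rw [Complex.sub_re, Complex.natCast_re]
      have h3 : (((X k).dim + c k : ℕ) : ℝ) ≤ Y.dim := by exact_mod_cast hd k
      push_cast at h3
      linarith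
  refine ⟨⟨_, hc⟩, fun j => ?_⟩
  have h3 := hc.order j
  rw [h2] at h3
  have h4 : ∑ k, meromorphicOrderAt (f k) (-(j : ℂ) - (c k : ℕ)) =
      ((∑ k, ordv (X k) (j + c k) : ℤ) : WithTop ℤ) := by
    rw [WithTop.coe_sum]
    refine Finset.sum_congr rfl fun k _ => ?_
    rw [← (hf k).order (j + c k)]
    congr 1
    push_cast
    ring
  rw [h4] at h3
  exact (WithTop.coe_injective h3).symm

/-! ### Euler characteristics -/

/-- finite dimensional, almost all zero -/
structure FinFam (A : ℕ → QSpace) : Prop where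
  finite : ∀ i, Module.Finite ℚ (A i).V
  bounded : {i : ℕ | Nontrivial (A i).V}.Finite

/-- the Euler characteristic -/
noncomputable def chiF (A : ℕ → QSpace) : ℤ := ∑ᶠ i : ℕ, (-1) ^ (i + 1) * ((A i).rank : ℤ)

theorem rank_sum {A : QSpace} {ι : Type} [Fintype ι] {B : ι → QSpace} (h : A.SumOf B)
    (hB : ∀ k, Module.Finite ℚ (B k).V) : Module.Finite ℚ A.V ∧ A.rank = ∑ k, (B k).rank := by
  obtain ⟨e⟩ := h
  refine ⟨Module.Finite.equiv e.symm, ?_⟩
  unfold QSpace.rank
  rw [e.finrank_eq, Module.finrank_pi_fintype]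

theorem support_finite {A : ℕ → QSpace} (h : FinFam A) :
    (Function.support fun i : ℕ => (-1 : ℤ) ^ (i + 1) * ((A i).rank : ℤ)).Finite := by
  refine h.bounded.subset fun i hi => ?_
  rw [Function.mem_support] at hi
  by_contra h1
  have h2 : Subsingleton (A i).V := not_nontrivial_iff_subsingleton.1 h1
  apply hi
  unfold QSpace.rank
  rw [Module.finrank_zero_of_subsingleton]
  simp

theorem chi_sum {ι : Type} [Fintype ι] {A : ℕ → QSpace} {B : ι → ℕ → QSpace}
    (h : ∀ i, (A i).SumOf fun k => B k i) (hB : ∀ k, FinFam (B k)) :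
    FinFam A ∧ chiF A = ∑ k, chiF (B k) := by
  have h1 : ∀ i, Module.Finite ℚ (A i).V ∧ (A i).rank = ∑ k, (B k i).rank :=
    fun i => rank_sum (h i) fun k => (hB k).finite i
  refine ⟨⟨fun i => (h1 i).1, ?_⟩, ?_⟩
  · refine (Set.finite_iUnion fun k => (hB k).bounded).subset fun i hi => ?_
    rw [Set.mem_iUnion]
    by_contra hc
    push Not at hc
    have h2 : ∀ k, Subsingleton (B k i).V := fun k => not_nontrivial_iff_subsingleton.1 (hc k)
    obtain ⟨e⟩ := h i
    have h3 : Subsingleton (A i).V := e.toEquiv.subsingleton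
    exact not_subsingleton_iff_nontrivial.2 hi h3
  · unfold chiF
    have h2 : ∀ i : ℕ, (-1 : ℤ) ^ (i + 1) * ((A i).rank : ℤ) =
        ∑ k, (-1 : ℤ) ^ (i + 1) * ((B k i).rank : ℤ) := by
      intro i
      rw [(h1 i).2, Nat.cast_sum, Finset.mul_sum]
    simp_rw [h2]
    exact finsum_sum_comm _ _ fun k _ => support_finite (hB k)

variable {S : VarClass} {D : Data S}

theorem finFam_iff (X : S.Obj) (j : ℕ) : FiniteDim D X j ↔ FinFam (D.H X j) :=
  ⟨fun h => ⟨h.1, h.2⟩, fun h => ⟨h.1, h.2⟩⟩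

/-- the difference of the two sides -/
noncomputable def defect (D : Data S) (X : S.Obj) (j : ℕ) : ℤ := ordv X.V j - chi D X j

theorem soule_iff {X : S.Obj} (h : Good D X) (j : ℕ) : Soule D X j ↔ defect D X j = 0 := by
  unfold defect
  rw [sub_eq_zero]
  obtain ⟨f, hf⟩ := h.cont
  constructor
  · intro H
    have h1 := H f hf (h.fin j)
    rw [hf.order] at h1
    exact WithTop.coe_injective h1
  · intro H g hg _
    rw [hg.order, H]

/-! ### Formulas -/

theorem isProd_good {m : ℕ} {P X : S.Obj} (h : IsProd D m P X) (hX : Good D X) :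
    Good D P ∧ ∀ j, defect D P j = ∑ k : Fin (m + 1), defect D X (j + k) := by
  have h1 := order_of_formula (Y := P.V) (fun _ : Fin (m + 1) => X.V) (fun k => (k : ℕ)) (fun k => by
      have h2 : P.V.dim = X.V.dim + m := h.dim
      rw [h2]
      exact Nat.add_le_add_left (Nat.lt_succ_iff.1 k.2) _)
    (fun s hs => h.zeta s (by
      have h2 : P.V.dim = X.V.dim + m := h.dim
      rw [h2] at hs
      exact hs)) fun _ => hX.cont
  have h2 : ∀ j, FinFam (D.H P j) ∧ chiF (D.H P j) = ∑ k : Fin (m + 1), chiF (D.H X (j + k)) :=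
    fun j => chi_sum (h.coh j) fun k => (finFam_iff _ _).1 (hX.fin _)
  refine ⟨⟨h1.1, fun j => (finFam_iff _ _).2 (h2 j).1⟩, fun j => ?_⟩
  unfold defect
  rw [h1.2, Finset.sum_sub_distrib]
  congr 1
  exact (h2 j).2

theorem isBlowUp_good {B X W : S.Obj} {c : ℕ} (h : IsBlowUp D B X W c) (hX : Good D X)
    (hW : Good D W) :
    Good D B ∧ ∀ j, defect D B j = defect D X j + ∑ a : Fin c, defect D W (j + (a + 1)) := by
  have hd : B.V.dim = X.V.dim := h.dim
  have hc : X.V.dim = W.V.dim + c + 1 := h.codim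
  have h1 := order_of_formula (Y := B.V) (ι := Option (Fin c))
    (fun k => k.elim X.V fun _ => W.V) (fun k => k.elim 0 fun a => (a : ℕ) + 1) (by
      rintro (_ | a)
      · change X.V.dim + 0 ≤ B.V.dim
        omega
      · change W.V.dim + ((a : ℕ) + 1) ≤ B.V.dim
        have := a.2
        omega)
    (fun s hs => by
      rw [Fintype.prod_option]
      change zeta B.V.X s = zeta X.V.X (s - ((0 : ℕ) : ℂ)) *
        ∏ a : Fin c, zeta W.V.X (s - (((a : ℕ) + 1 : ℕ) : ℂ))
      rw [Nat.cast_zero, sub_zero]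
      refine h.zeta s ?_
      rw [hd] at hs
      exact hs) (by
      rintro (_ | a)
      · exact hX.cont
      · exact hW.cont)
  have h2 : ∀ j, FinFam (D.H B j) ∧ chiF (D.H B j) =
      ∑ k : Option (Fin c), chiF (fun i => k.elim (D.H X j i) fun a => D.H W (j + (a + 1)) i) := by
    intro j
    refine chi_sum (B := fun (k : Option (Fin c)) i => k.elim (D.H X j i) fun a => D.H W (j + (a + 1)) i)
      (h.coh j) ?_
    rintro (_ | a)
    · exact (finFam_iff _ _).1 (hX.fin _)
    · exact (finFam_iff _ _).1 (hW.fin _)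
  refine ⟨⟨h1.1, fun j => (finFam_iff _ _).2 (h2 j).1⟩, fun j => ?_⟩
  have h3 : chi D B j = chi D X j + ∑ a : Fin c, chi D W (j + (a + 1)) := by
    refine (h2 j).2.trans ?_
    rw [Fintype.sum_option]
    rfl
  have h4 : ordv B.V j = ordv X.V j + ∑ a : Fin c, ordv W.V (j + (a + 1)) := by
    rw [h1.2 j, Fintype.sum_option]
    rfl
  unfold defect
  rw [h3, h4, Finset.sum_sub_distrib]
  ring

/-! ### Arithmetic -/

/-- If the sums `∑ e (a + k)`, `1 ≤ a ≤ c`, `0 ≤ k ≤ m`, vanish for every `m` and all large `c`, then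
`e j = 0` for `j ≥ 1`. -/
theorem telescope (e : ℕ → ℤ)
    (h : ∀ m : ℕ, ∃ c₀ : ℕ, ∀ c ≥ c₀, ∑ a : Fin c, ∑ k : Fin (m + 1), e ((a : ℕ) + 1 + k) = 0)
    (j : ℕ) (hj : 1 ≤ j) : e j = 0 := by
  have h' : ∀ m : ℕ, ∃ c₀ : ℕ, ∀ c ≥ c₀,
      ∑ a ∈ Finset.range c, ∑ k ∈ Finset.range (m + 1), e (a + 1 + k) = 0 := by
    intro m
    obtain ⟨c₀, hc⟩ := h m
    refine ⟨c₀, fun c hc' => ?_⟩
    rw [← hc c hc', ← Fin.sum_univ_eq_sum_range (fun a => ∑ k ∈ Finset.range (m + 1), e (a + 1 + k))]
    exact Finset.sum_congr rfl fun a _ => (Fin.sum_univ_eq_sum_range (fun k => e (a + 1 + k)) _).symm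
  -- `e a = 0` for large `a`
  obtain ⟨A, hA⟩ : ∃ A : ℕ, ∀ a ≥ A, e a = 0 := by
    obtain ⟨c₀, hc⟩ := h' 0
    refine ⟨c₀ + 1, fun a ha => ?_⟩
    obtain ⟨b, rfl⟩ : ∃ b, a = b + 1 := ⟨a - 1, by omega⟩
    have h1 := hc b (by omega)
    have h2 := hc (b + 1) (by omega)
    rw [Finset.sum_range_succ, h1, zero_add, zero_add, Finset.sum_range_one, add_zero] at h2
    exact h2
  -- the sums over all `a`
  have hs : ∀ m : ℕ, ∑ k ∈ Finset.range (m + 1), ∑ a ∈ Finset.range A, e (a + 1 + k) = 0 := by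
    intro m
    obtain ⟨c₀, hc⟩ := h' m
    have h1 := hc (A + c₀) (by omega)
    rw [Finset.sum_comm] at h1
    rw [← h1]
    refine Finset.sum_congr rfl fun k _ => ?_
    rw [Finset.sum_range_add, left_eq_add]
    exact Finset.sum_eq_zero fun a _ => hA _ (by omega)
  have hk : ∀ k : ℕ, ∑ a ∈ Finset.range A, e (a + 1 + k) = 0 := by
    intro k
    rcases k with _ | k
    · simpa using hs 0
    · have h1 := hs (k + 1)
      rw [Finset.sum_range_succ, hs k, zero_add] at h1
      exact h1
  obtain ⟨k, rfl⟩ : ∃ k, j = k + 1 := ⟨j - 1, by omega⟩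
  have h1 := hk k
  have h2 := hk (k + 1)
  have h3 : ∑ a ∈ Finset.range (A + 1), e (a + 1 + k) = 0 := by
    rw [Finset.sum_range_succ, h1, hA _ (by omega), add_zero]
  rw [Finset.sum_range_succ'] at h3
  have h4 : ∑ a ∈ Finset.range A, e (a + 1 + 1 + k) = ∑ a ∈ Finset.range A, e (a + 1 + (k + 1)) :=
    Finset.sum_congr rfl fun a _ => by congr 1; omega
  rw [h4, h2, zero_add] at h3
  rw [show k + 1 = 0 + 1 + k by omega]
  exact h3

/-! ### The theorems -/

theorem tower_good (h : IsData D) (hpt : Good D D.pt) {B : S.Obj} (hB : Tower D B) :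
    Good D B ∧ B.IsFlat := by
  induction hB with
  | base N => exact ⟨(isProd_good (h.prod D.pt N) hpt).1, (h.prod D.pt N).flat h.pt_flat⟩
  | blowUp hX hW hb ih => exact ⟨(isBlowUp_good (h.blowUp hb) ih.1 hW).1, (h.blowUp hb).flat ih.2⟩

theorem negative_of_towers (h : IsData D) (hpt : Good D D.pt) (H : ∀ B, Tower D B → Soule D B 0)
    (W : S.Obj) (hW : Good D W) (j : ℕ) (hj : 1 ≤ j) : defect D W j = 0 := by
  refine telescope (defect D W) (fun m => ?_) j hj
  have h1 := isProd_good (h.prod W m) hW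
  obtain ⟨c₀, hc⟩ := h.embed (D.prod W m)
  refine ⟨c₀, fun c hc' => ?_⟩
  obtain ⟨B, hB⟩ := hc c hc'
  have hP := Tower.base (D := D) ((D.prod W m).dim + c)
  have h2 := isBlowUp_good (h.blowUp hB) (tower_good h hpt hP).1 h1.1
  have h3 := (soule_iff h2.1 0).1 (H B (Tower.blowUp hP h1.1 hB))
  have h4 := (soule_iff (tower_good h hpt hP).1 0).1 (H _ hP)
  rw [h2.2 0, h4, zero_add] at h3
  rw [← h3]
  refine Finset.sum_congr rfl fun a _ => ?_
  rw [h1.2, zero_add]

theorem towersIffNegative (h : IsData D) (hpt : Good D D.pt) (h0 : Soule D D.pt 0) :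
    TowersIffNegative D := by
  constructor
  · intro H W hW j hj
    exact (soule_iff hW j).2 (negative_of_towers h hpt H W hW j hj)
  · intro H B hB
    have key : ∀ W, Good D W → ∀ j, 1 ≤ j → defect D W j = 0 := fun W hW j hj =>
      (soule_iff hW j).1 (H W hW j hj)
    rw [soule_iff (tower_good h hpt hB).1]
    induction hB with
    | base N =>
      rw [(isProd_good (h.prod D.pt N) hpt).2]
      refine Finset.sum_eq_zero fun k _ => ?_
      rcases Nat.eq_zero_or_pos (0 + (k : ℕ)) with hk | hk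
      · rw [hk]
        exact (soule_iff hpt 0).1 h0
      · exact key _ hpt _ hk
    | blowUp hX hW hb ih =>
      rw [(isBlowUp_good (h.blowUp hb) (tower_good h hpt hX).1 hW).2, ih, zero_add]
      exact Finset.sum_eq_zero fun a _ => key _ hW _ (by omega)

theorem zeroIffNonpositive (h : IsData D) (hpt : Good D D.pt) : ZeroIffNonpositive D := by
  constructor
  · intro H X hX j hj
    rcases Nat.eq_zero_or_pos j with rfl | hj0
    · refine H X ?_ hX
      rcases hj with hj | hj
      · exact hj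
      · exact absurd hj (by norm_num)
    · refine (soule_iff hX j).2 (negative_of_towers h hpt ?_ X hX j hj0)
      intro B hB
      have h1 := tower_good h hpt hB
      exact H B h1.2 h1.1
  · intro H X hf hX
    exact H X hX 0 (Or.inl hf)

theorem invariance (h : IsData D) (hpt : Good D D.pt) : Invariance D := by
  intro H
  have key := negative_of_towers h hpt H
  constructor
  · intro B X W c hX hW hb
    have h1 := isBlowUp_good (h.blowUp hb) hX hW
    rw [soule_iff h1.1, soule_iff hX, h1.2, Finset.sum_eq_zero fun a _ => key W hW _ (by omega),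
      add_zero]
  · intro X m hX
    have h1 := isProd_good (h.prod X m) hX
    rw [soule_iff h1.1, soule_iff hX, h1.2, Fin.sum_univ_succ,
      Finset.sum_eq_zero fun k _ => key X hX _ (by rw [Fin.val_succ]; omega), add_zero]
    rfl

theorem upToDimension (h : IsData D) (N : ℕ) : UpToDimension D N := by
  constructor
  · intro H X hf hX j hj
    have key : ∀ m, X.dim + m ≤ N → ∑ k : Fin (m + 1), defect D X (0 + k) = 0 := by
      intro m hm
      have h1 := isProd_good (h.prod X m) hX
      rw [← h1.2]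
      refine (soule_iff h1.1 0).1 (H _ ((h.prod X m).flat hf) h1.1 ?_)
      rw [(h.prod X m).dim]
      exact hm
    rcases j with _ | j
    · exact H X hf hX hj
    · rw [soule_iff hX]
      have h1 := key j (by omega)
      have h2 := key (j + 1) hj
      rw [Fin.sum_univ_castSucc] at h2
      have h3 : ∑ k : Fin (j + 1), defect D X (0 + (k.castSucc : ℕ)) = 0 := h1
      rw [h3, zero_add, zero_add, Fin.val_last] at h2
      exact h2
  · intro H X hf hX hd
    exact H X hf hX 0 hd

end Pool.Agent.R387.SO
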